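import Pool.Agent.W203.WS.Stm

/-!
# Waring's problem with almost all shifts: the mean square over the shift
-/

set_option autoImplicit false

open MeasureTheory Finset

namespace Pool.Agent.W215.WS

open Pool.Agent.W203.WS

theorem e_eq (x : ℝ) : e x = Complex.exp (((2 * Real.pi * x : ℝ) : ℂ) * Complex.I) := by
  unfold e
  congr 1
  push_cast
  ring

theorem norm_e (x : ℝ) : ‖e x‖ = 1 := by
  rw [e_eq, Complex.norm_exp_ofReal_mul_I]

theorem conj_e (x : ℝ) : (starRingEnd ℂ) (e x) = e (-x) := by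
  rw [e_eq, e_eq, ← Complex.exp_conj]
  congr 1
  rw [map_mul, Complex.conj_ofReal, Complex.conj_I]
  push_cast
  ring

theorem e_add (x y : ℝ) : e (x + y) = e x * e y := by
  rw [e_eq, e_eq, e_eq, ← Complex.exp_add]
  congr 1
  push_cast
  ring

theorem cont_e : Continuous e := by
  unfold e
  fun_prop

/-- the square of the norm of a sum of unimodular numbers -/
theorem norm_sq_sum (f : ℕ → ℂ) (hf : ∀ n, ‖f n‖ = 1) (a n : ℕ) (han : a ≤ n) :
    ‖∑ x ∈ Ico a n, f x‖ ^ 2 = ((n : ℝ) - a) +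
      2 * ∑ x ∈ Ico a n, ∑ y ∈ Ico a x, (f x * (starRingEnd ℂ) (f y)).re := by
  induction n, han using Nat.le_induction with
  | base => simp
  | succ n hn ih =>
    rw [Finset.sum_Ico_succ_top hn, Finset.sum_Ico_succ_top hn]
    have h1 : ‖∑ x ∈ Ico a n, f x + f n‖ ^ 2 = ‖∑ x ∈ Ico a n, f x‖ ^ 2 + ‖f n‖ ^ 2 +
        2 * (f n * (starRingEnd ℂ) (∑ x ∈ Ico a n, f x)).re := by
      rw [← Complex.normSq_eq_norm_sq, ← Complex.normSq_eq_norm_sq, ← Complex.normSq_eq_norm_sq,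
        add_comm (∑ x ∈ Ico a n, f x) (f n), Complex.normSq_add]
      ring
    have h2 : (f n * (starRingEnd ℂ) (∑ x ∈ Ico a n, f x)).re =
        ∑ y ∈ Ico a n, (f n * (starRingEnd ℂ) (f y)).re := by
      rw [map_sum, Finset.mul_sum, Complex.re_sum]
    rw [h1, ih, hf, h2]
    push_cast
    ring

/-- grouping by differences -/
theorem group_sum (g : ℕ → ℕ → ℝ) (a n : ℕ) :
    ∑ x ∈ Ico a n, ∑ y ∈ Ico a x, g x y =
      ∑ h ∈ Ico 1 (n - a), ∑ y ∈ Ico a (n - h), g (y + h) y := by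
  rw [Finset.sum_sigma', Finset.sum_sigma']
  refine Finset.sum_nbij' (fun q => ⟨q.1 - q.2, q.2⟩) (fun q => ⟨q.2 + q.1, q.2⟩) ?_ ?_ ?_ ?_ ?_
  · rintro ⟨x, y⟩ h
    simp only [Finset.mem_sigma, Finset.mem_Ico] at h ⊢
    omega
  · rintro ⟨x, y⟩ h
    simp only [Finset.mem_sigma, Finset.mem_Ico] at h ⊢
    omega
  · rintro ⟨x, y⟩ h
    simp only [Finset.mem_sigma, Finset.mem_Ico] at h
    simp only [Sigma.mk.injEq, heq_eq_eq, and_true]
    omega
  · rintro ⟨x, y⟩ h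
    simp only [Finset.mem_sigma, Finset.mem_Ico] at h
    simp only [Sigma.mk.injEq, heq_eq_eq, and_true]
    omega
  · rintro ⟨x, y⟩ h
    simp only [Finset.mem_sigma, Finset.mem_Ico] at h
    have : y + (x - y) = x := by omega
    simp only [this]

/-- the derivative of the phase is large -/
theorem phase_lb (k : ℕ) (hk : 2 ≤ k) (P h : ℕ) (hP : 1 ≤ P) (u : ℝ) (hu : (P : ℝ) ≤ u) :
    2 * (h : ℝ) * (P : ℝ) ^ (k - 2) ≤ (k : ℝ) * ((u + h) ^ (k - 1) - u ^ (k - 1)) := by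
  obtain ⟨j, rfl⟩ := Nat.exists_eq_add_of_le hk
  have h1 : 2 + j - 2 = j := by omega
  have h2 : 2 + j - 1 = j + 1 := by omega
  rw [h1, h2]
  have hP0 : (0 : ℝ) < P := by exact_mod_cast hP
  have hu0 : 0 < u := lt_of_lt_of_le hP0 hu
  have hh : (0 : ℝ) ≤ h := Nat.cast_nonneg h
  have h3 : u ^ j * h ≤ (u + h) ^ (j + 1) - u ^ (j + 1) := by
    have h4 : u ^ j ≤ (u + h) ^ j := pow_le_pow_left₀ hu0.le (by linarith) j
    have h5 : (u + h) ^ (j + 1) - u ^ (j + 1) = ((u + h) ^ j - u ^ j) * u + (u + h) ^ j * h := by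
      ring
    rw [h5]
    have h6 : 0 ≤ ((u + h) ^ j - u ^ j) * u := mul_nonneg (by linarith) hu0.le
    have h7 : u ^ j * h ≤ (u + h) ^ j * h := mul_le_mul_of_nonneg_right h4 hh
    linarith
  have h8 : (P : ℝ) ^ j ≤ u ^ j := pow_le_pow_left₀ hP0.le hu j
  have h9 : (P : ℝ) ^ j * h ≤ u ^ j * h := mul_le_mul_of_nonneg_right h8 hh
  have h10 : 0 ≤ (P : ℝ) ^ j * h := by positivity
  have h11 : (2 : ℝ) ≤ ((2 + j : ℕ) : ℝ) := by
    push_cast
    have : (0 : ℝ) ≤ j := Nat.cast_nonneg j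
    linarith
  calc 2 * (h : ℝ) * (P : ℝ) ^ j = 2 * ((P : ℝ) ^ j * h) := by ring
    _ ≤ ((2 + j : ℕ) : ℝ) * ((P : ℝ) ^ j * h) := mul_le_mul_of_nonneg_right h11 h10
    _ ≤ ((2 + j : ℕ) : ℝ) * ((u + h) ^ (j + 1) - u ^ (j + 1)) :=
      mul_le_mul_of_nonneg_left (by linarith) (by linarith)

/-- the integral for one difference -/
theorem diff_int (hF : S_FDT) (k : ℕ) (hk : 2 ≤ k) (P h : ℕ) (hP : 1 ≤ P) (h1 : 1 ≤ h)
    (hh : h < 3 * P) (t : ℝ) (ht : 0 < t) :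
    ‖∫ u in (P : ℝ)..((4 * P - h : ℕ) : ℝ), e (t * ((u + h) ^ k - u ^ k))‖ ≤
      1 / (2 * t * h * (P : ℝ) ^ (k - 2)) := by
  have hP0 : (0 : ℝ) < P := by exact_mod_cast hP
  have hh0 : (0 : ℝ) < h := by exact_mod_cast h1
  refine hF (fun u => t * ((u + h) ^ k - u ^ k))
    (fun u => t * (k * ((u + h) ^ (k - 1) - u ^ (k - 1))))
    (fun u => t * (k * ((k - 1 : ℕ) * ((u + h) ^ (k - 1 - 1) - u ^ (k - 1 - 1)))))
    P ((4 * P - h : ℕ) : ℝ) (2 * t * h * (P : ℝ) ^ (k - 2)) ?_ (by positivity) ?_ ?_ ?_ ?_ ?_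
  · exact_mod_cast (show P ≤ 4 * P - h by omega)
  · intro x _
    have d1 : HasDerivAt (fun u : ℝ => (u + h) ^ k) (k * (x + h) ^ (k - 1) * 1) x :=
      ((hasDerivAt_id x).add_const (h : ℝ)).pow k
    have d2 : HasDerivAt (fun u : ℝ => u ^ k) (k * x ^ (k - 1)) x := hasDerivAt_pow k x
    have d3 := (d1.sub d2).const_mul t
    refine d3.congr_deriv ?_
    ring
  · intro x _
    have d1 : HasDerivAt (fun u : ℝ => (u + h) ^ (k - 1)) ((k - 1 : ℕ) * (x + h) ^ (k - 1 - 1) * 1) x :=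
      ((hasDerivAt_id x).add_const (h : ℝ)).pow (k - 1)
    have d2 : HasDerivAt (fun u : ℝ => u ^ (k - 1)) ((k - 1 : ℕ) * x ^ (k - 1 - 1)) x :=
      hasDerivAt_pow (k - 1) x
    have d3 := ((d1.sub d2).const_mul (k : ℝ)).const_mul t
    refine d3.congr_deriv ?_
    ring
  · fun_prop
  · intro x hx
    have := phase_lb k hk P h hP x hx.1
    calc 2 * t * h * (P : ℝ) ^ (k - 2) = t * (2 * (h : ℝ) * (P : ℝ) ^ (k - 2)) := by ring
      _ ≤ t * (k * ((x + h) ^ (k - 1) - x ^ (k - 1))) := mul_le_mul_of_nonneg_left this ht.le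
  · intro x hx
    have hx0 : 0 ≤ x := hP0.le.trans hx.1
    have : x ^ (k - 1 - 1) ≤ (x + h) ^ (k - 1 - 1) := pow_le_pow_left₀ hx0 (by linarith) _
    have h3 : 0 ≤ (x + h) ^ (k - 1 - 1) - x ^ (k - 1 - 1) := by linarith
    positivity

/-- the case of positive `t` -/
theorem sq_pos (hF : S_FDT) (k P : ℕ) (t : ℝ) (hk : 2 ≤ k) (hP : 1 ≤ P) (ht : 0 < t) :
    ∫ θ in (0 : ℝ)..1, ‖S k P t θ‖ ^ 2 ≤
      3 * P + (1 + Real.log (3 * P)) / (t * (P : ℝ) ^ (k - 2)) := by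
  have hP0 : (0 : ℝ) < P := by exact_mod_cast hP
  obtain ⟨E, hE⟩ : ∃ E : ℕ → ℝ → ℂ, E = fun (h : ℕ) (u : ℝ) =>
      e (t * ((u + (h : ℝ)) ^ k - u ^ k)) := ⟨_, rfl⟩
  have hEc : ∀ h, Continuous (E h) := by
    intro h
    rw [hE]
    exact cont_e.comp (by fun_prop)
  have h1 : ∀ θ : ℝ, ‖S k P t θ‖ ^ 2 = 3 * P + 2 * ∑ h ∈ Ico 1 (3 * P),
      ∑ y ∈ Ico P (4 * P - h), (E h (y + θ)).re := by
    intro θ
    unfold S
    rw [norm_sq_sum _ (fun n => norm_e _) P (4 * P) (by omega), group_sum]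
    have h2 : 4 * P - P = 3 * P := by omega
    rw [h2]
    have h3 : ((4 * P : ℕ) : ℝ) - P = 3 * P := by push_cast; ring
    rw [h3]
    congr 2
    refine Finset.sum_congr rfl fun h _ => Finset.sum_congr rfl fun y _ => ?_
    rw [hE, conj_e, ← e_add]
    congr 2
    push_cast
    ring
  have hcont : ∀ h y : ℕ, Continuous fun θ : ℝ => (E h (y + θ)).re := fun h y =>
    Complex.continuous_re.comp ((hEc h).comp (continuous_const.add continuous_id))
  have h4 : ∫ θ in (0 : ℝ)..1, ‖S k P t θ‖ ^ 2 = 3 * P + 2 * ∑ h ∈ Ico 1 (3 * P),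
      ∑ y ∈ Ico P (4 * P - h), ∫ θ in (0 : ℝ)..1, (E h (y + θ)).re := by
    have c1 : Continuous fun θ : ℝ => ∑ h ∈ Ico 1 (3 * P), ∑ y ∈ Ico P (4 * P - h),
        (E h (y + θ)).re :=
      continuous_finsetSum _ fun h _ => continuous_finsetSum _ fun y _ => hcont h y
    have c2 : ∫ θ in (0 : ℝ)..1, ‖S k P t θ‖ ^ 2 = ∫ θ in (0 : ℝ)..1, ((3 * P : ℝ) + 2 *
        ∑ h ∈ Ico 1 (3 * P), ∑ y ∈ Ico P (4 * P - h), (E h (y + θ)).re) :=
      intervalIntegral.integral_congr fun θ _ => h1 θ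
    have c3 : ∫ θ in (0 : ℝ)..1, ∑ h ∈ Ico 1 (3 * P), ∑ y ∈ Ico P (4 * P - h), (E h (y + θ)).re =
        ∑ h ∈ Ico 1 (3 * P), ∑ y ∈ Ico P (4 * P - h), ∫ θ in (0 : ℝ)..1, (E h (y + θ)).re := by
      rw [intervalIntegral.integral_finsetSum]
      · refine Finset.sum_congr rfl fun h _ => ?_
        rw [intervalIntegral.integral_finsetSum]
        exact fun y _ => (hcont h y).intervalIntegrable _ _
      · intro h _
        exact (continuous_finsetSum _ fun y _ => hcont h y).intervalIntegrable _ _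
    have c4 : ∀ g : ℝ → ℝ, Continuous g → ∫ θ in (0 : ℝ)..1, ((3 * P : ℝ) + 2 * g θ) =
        3 * P + 2 * ∫ θ in (0 : ℝ)..1, g θ := by
      intro g hg
      have i1 : IntervalIntegrable (fun _ : ℝ => (3 * P : ℝ)) volume 0 1 :=
        continuous_const.intervalIntegrable _ _
      have i2 : IntervalIntegrable (fun θ : ℝ => 2 * g θ) volume 0 1 :=
        (continuous_const.mul hg).intervalIntegrable _ _
      rw [intervalIntegral.integral_add i1 i2, intervalIntegral.integral_const_mul,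
        intervalIntegral.integral_const]
      simp
    rw [c2, c4 _ c1, c3]
  have h5 : ∀ h ∈ Ico 1 (3 * P), ∑ y ∈ Ico P (4 * P - h), ∫ θ in (0 : ℝ)..1, (E h (y + θ)).re ≤
      1 / (2 * t * h * (P : ℝ) ^ (k - 2)) := by
    intro h hh
    rw [Finset.mem_Ico] at hh
    have h6 : ∀ y ∈ Ico P (4 * P - h), ∫ θ in (0 : ℝ)..1, (E h (y + θ)).re =
        ∫ u in ((y : ℕ) : ℝ)..((y + 1 : ℕ) : ℝ), (E h u).re := by
      intro y _
      rw [intervalIntegral.integral_comp_add_left (fun u => (E h u).re) (y : ℝ)]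
      simp
    rw [Finset.sum_congr rfl h6]
    rw [intervalIntegral.sum_integral_adjacent_intervals_Ico (a := fun n : ℕ => (n : ℝ))
      (f := fun u => (E h u).re) (by omega)
      (fun _ _ => (Complex.continuous_re.comp (hEc h)).intervalIntegrable _ _)]
    have h7 : ∫ u in (P : ℝ)..((4 * P - h : ℕ) : ℝ), (E h u).re =
        (∫ u in (P : ℝ)..((4 * P - h : ℕ) : ℝ), E h u).re := by
      have := ContinuousLinearMap.intervalIntegral_comp_comm Complex.reCLM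
        ((hEc h).intervalIntegrable (μ := volume) (P : ℝ) ((4 * P - h : ℕ) : ℝ))
      simpa using this
    rw [h7]
    refine (Complex.re_le_norm _).trans ?_
    rw [hE]
    exact diff_int hF k hk P h hP hh.1 hh.2 t ht
  rw [h4]
  have h8 : ∑ h ∈ Ico 1 (3 * P), 1 / (2 * t * (h : ℝ) * (P : ℝ) ^ (k - 2)) =
      (1 / (2 * (t * (P : ℝ) ^ (k - 2)))) * ∑ h ∈ Ico 1 (3 * P), ((h : ℝ))⁻¹ := by
    rw [Finset.mul_sum]
    refine Finset.sum_congr rfl fun h hh => ?_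
    rw [Finset.mem_Ico] at hh
    have : (0 : ℝ) < h := by exact_mod_cast (show 0 < h by omega)
    field_simp
  have h9 : ∑ h ∈ Ico 1 (3 * P), ((h : ℝ))⁻¹ ≤ 1 + Real.log (3 * P) := by
    have h10 := harmonic_le_one_add_log (3 * P)
    have h11 : ((harmonic (3 * P) : ℚ) : ℝ) = ∑ i ∈ Finset.Icc 1 (3 * P), ((i : ℝ))⁻¹ := by
      rw [harmonic_eq_sum_Icc]
      push_cast
      rfl
    rw [h11] at h10
    have h12 : ∑ h ∈ Ico 1 (3 * P), ((h : ℝ))⁻¹ ≤ ∑ i ∈ Finset.Icc 1 (3 * P), ((i : ℝ))⁻¹ := by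
      refine Finset.sum_le_sum_of_subset_of_nonneg ?_ (fun i _ _ => by positivity)
      intro i hi
      rw [Finset.mem_Ico] at hi
      rw [Finset.mem_Icc]
      omega
    have h13 : Real.log ((3 * P : ℕ) : ℝ) = Real.log (3 * P) := by
      push_cast
      rfl
    rw [h13] at h10
    linarith
  have h14 : 0 < t * (P : ℝ) ^ (k - 2) := by positivity
  have h15 := Finset.sum_le_sum h5
  rw [h8] at h15
  have h16 : (1 / (2 * (t * (P : ℝ) ^ (k - 2)))) * ∑ h ∈ Ico 1 (3 * P), ((h : ℝ))⁻¹ ≤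
      (1 / (2 * (t * (P : ℝ) ^ (k - 2)))) * (1 + Real.log (3 * P)) :=
    mul_le_mul_of_nonneg_left h9 (by positivity)
  have h17 : (1 + Real.log (3 * P)) / (t * (P : ℝ) ^ (k - 2)) =
      2 * ((1 / (2 * (t * (P : ℝ) ^ (k - 2)))) * (1 + Real.log (3 * P))) := by
    field_simp
  rw [h17]
  linarith

/-- mean square of `S` over the shift -/
theorem t_SQ (h : S_FDT) : S_SQ := by
  intro k P t hk hP ht
  rcases lt_or_gt_of_ne ht with h1 | h1
  · have h2 := sq_pos h k P (-t) hk hP (by linarith)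
    rw [abs_of_neg h1]
    refine le_trans (le_of_eq ?_) h2
    refine intervalIntegral.integral_congr fun θ _ => ?_
    have h3 : S k P (-t) θ = (starRingEnd ℂ) (S k P t θ) := by
      unfold S
      rw [map_sum]
      refine Finset.sum_congr rfl fun x _ => ?_
      rw [conj_e]
      congr 1
      ring
    simp only [h3, RCLike.norm_conj]
  · rw [abs_of_pos h1]
    exact sq_pos h k P t hk hP h1

end Pool.Agent.W215.WS
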